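import Pool.Agent.H19.Teach2

set_option autoImplicit false

namespace Pool.Agent.Results.MP_4dbef5_lc.Two

open Pool.Agent.H19.Teach

/-- An upper bound for the size of a concept class of no-clash teaching dimension two. -/
theorem result (n : ℕ) (hn : 2 ≤ n) (𝒞 : Finset (Finset (Fin n))) (h : NCTD 𝒞 = 2) :
    4 * 𝒞.card + 4 * n ≤ 5 * n ^ 2 + 4 :=
  main2 n hn 𝒞 h

end Pool.Agent.Results.MP_4dbef5_lc.Two
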