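import Pool.Agent.H19.Teach

set_option autoImplicit false

namespace Pool.Agent.Results.MP_4dbef5_lc.Upper

open Pool.Agent.H19.Teach

/-- An averaging upper bound for the size of a concept class of no-clash teaching dimension `d`. -/
theorem result (n d u : ℕ) (𝒞 : Finset (Finset (Fin n))) (h : NCTD 𝒞 = d) (hdu : d ≤ u)
    (hun : u ≤ n) : 𝒞.card * u.choose d ≤ 2 ^ u * n.choose d :=
  main n d u 𝒞 h hdu hun

end Pool.Agent.Results.MP_4dbef5_lc.Upper
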